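import Mathlib
import Pool.Agent.V8H20.LD.L14

/-!
# The primes `p` with `N_{k,d}(p r) = N_{k,d}(r)` for all radii

Jacobi's formula gives `N_{2,4}(2^j) = 24` for all `j`. For `k ≥ 3` and `d ≥ k + 1` we determine all
primes `p` for which `N_{k,d}(p r) = N_{k,d}(r)` holds for every radius `r`.
-/

set_option autoImplicit false

namespace Pool.Agent.Results.MP_927be3_nt.JacobiPrimes

/-- The arithmetic `k`-sphere `S_{k,d}(r)` of radius `r` in dimension `d`. -/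
def sphere (k d : ℕ) (r : ℝ) : Set (Fin d → ℤ) := {m | ∑ i, |(m i : ℝ)| ^ k = r ^ k}

/-- For `k ≥ 3`, `d ≥ k + 1` and a prime `p`: `N_{k,d}(p r) = N_{k,d}(r)` for all `r > 0` with
`r^k ∈ ℕ` if and only if `p - 1 ∣ k` and `d < p^γ`, where `γ = v_p(k) + 1`, but `γ = v_2(k) + 2` if
`p = 2` and `k` is even. -/
theorem result (k d p : ℕ) (hk : 3 ≤ k) (hd : k + 1 ≤ d) (hp : p.Prime) :
    (∀ r : ℝ, 0 < r → (∃ n : ℕ, r ^ k = n) →
        (sphere k d (p * r)).ncard = (sphere k d r).ncard) ↔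
      (p - 1 ∣ k ∧ d < p ^ (padicValNat p k + if p = 2 ∧ 2 ∣ k then 2 else 1)) :=
  Pool.Agent.V8H20.LD.jacobi_iff hk hd hp

end Pool.Agent.Results.MP_927be3_nt.JacobiPrimes
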