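import Mathlib
import Pool.Agent.V8H20.LD.L17

/-!
# Large values of `N_{k,k+1}(r)`

In dimension `k + 1` the number of lattice points exceeds the expected order `r` infinitely often by
a factor `log log r`.
-/

set_option autoImplicit false

namespace Pool.Agent.Results.MP_927be3_nt.LargeValuesKPlusOne

/-- The arithmetic `k`-sphere `S_{k,d}(r)` of radius `r` in dimension `d`. -/
def sphere (k d : ℕ) (r : ℝ) : Set (Fin d → ℤ) := {m | ∑ i, |(m i : ℝ)| ^ k = r ^ k}

/-- For every `k ≥ 3` there is `c > 0` such that `N_{k,k+1}(r) ≥ c r log log r` for arbitrarily large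
radii `r`. -/
theorem result (k : ℕ) (hk : 3 ≤ k) :
    ∃ c : ℝ, 0 < c ∧ ∀ R : ℝ, ∃ r : ℝ, R ≤ r ∧ 3 ≤ r ∧ (∃ n : ℕ, r ^ k = n) ∧
      (sphere k (k + 1) r).Nonempty ∧
      c * (r * Real.log (Real.log r)) ≤ ((sphere k (k + 1) r).ncard : ℝ) := by
  obtain ⟨c, hc, h⟩ := Pool.Agent.V8H20.LD.omega_succ hk
  refine ⟨c, hc, ?_⟩
  intro R
  obtain ⟨r, hr, hr3, hn, hle⟩ := h R
  refine ⟨r, hr, hr3, hn, ?_, hle⟩
  have h1 : 1 < Real.log r := by
    rw [Real.lt_log_iff_exp_lt (by linarith)]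
    have := Real.exp_one_lt_d9
    linarith
  have h2 : 0 < Real.log (Real.log r) := Real.log_pos h1
  have h3 : 0 < c * (r * Real.log (Real.log r)) := mul_pos hc (mul_pos (by linarith) h2)
  have h4 : (0 : ℝ) < ((Pool.Agent.TH854.KS.sphere k (k + 1) r).ncard : ℝ) := lt_of_lt_of_le h3 hle
  have h5 : 0 < (Pool.Agent.TH854.KS.sphere k (k + 1) r).ncard := by exact_mod_cast h4
  exact Set.nonempty_of_ncard_ne_zero h5.ne'

end Pool.Agent.Results.MP_927be3_nt.LargeValuesKPlusOne
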