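import Mathlib
import Pool.Agent.TH854.KS.K7

/-!
# A lower bound for `d_0(k)` from `k + 2` and all local obstructions
-/

set_option autoImplicit false

namespace Pool.Agent.Results.MP_927be3_nt.LocalLowerBound

/-- The arithmetic `k`-sphere `S_{k,d}(r)` of radius `r` in dimension `d`. -/
def sphere (k d : ℕ) (r : ℝ) : Set (Fin d → ℤ) := {m | ∑ i, |(m i : ℝ)| ^ k = r ^ k}

/-- `N_{k,d}(r) ≍ r^{d-k}`: there are `0 < c ≤ C` and `r₀` with `c r^{d-k} ≤ N_{k,d}(r) ≤ C r^{d-k}`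
for all radii `r ≥ r₀`, `r > 0`, with non-empty `S_{k,d}(r)`. -/
def OrderHolds (k d : ℕ) : Prop :=
  ∃ c C r₀ : ℝ, 0 < c ∧ c ≤ C ∧ ∀ r : ℝ, 0 < r → r₀ ≤ r → (sphere k d r).Nonempty →
    c * r ^ ((d : ℝ) - k) ≤ ((sphere k d r).ncard : ℝ) ∧
      ((sphere k d r).ncard : ℝ) ≤ C * r ^ ((d : ℝ) - k)

/-- For `k ≥ 3` the order `N_{k,d}(r) ≍ r^{d-k}` can hold only in dimensions `d ≥ k + 2` with
`d ≥ 2^{v_2(k)+2}` if `k` is even, and `d ≥ p^{v_p(k)+1}` for every prime `p` with `p - 1 ∣ k`. -/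
theorem result (k d : ℕ) (hk : 3 ≤ k) (hd : 1 ≤ d) (h : OrderHolds k d) :
    k + 2 ≤ d ∧ (2 ∣ k → 2 ^ (padicValNat 2 k + 2) ≤ d) ∧
      ∀ p : ℕ, p.Prime → p - 1 ∣ k → p ^ (padicValNat p k + 1) ≤ d := by
  obtain ⟨c, C, r₀, hc, _, h⟩ := h
  have hH : Pool.Agent.TH854.KS.Holds k d := ⟨c, C, r₀, hc, h⟩
  have hd2 : k + 2 ≤ d := by
    by_contra hcon
    exact Pool.Agent.TH854.KS.fails_low hk hd (by omega) hH
  refine ⟨hd2, ?_, ?_⟩
  · intro h2
    have : Fact (Nat.Prime 2) := ⟨Nat.prime_two⟩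
    exact Pool.Agent.TH854.KS.bound_two hk (by omega) hH
      (one_le_padicValNat_of_dvd (by omega) h2) pow_padicValNat_dvd
  · intro p hp hp1
    apply Pool.Agent.TH854.KS.bound_odd hk (by omega) hH hp
    apply Nat.Coprime.mul_dvd_of_dvd_of_dvd _ hp1 pow_padicValNat_dvd
    apply Nat.Coprime.pow_right
    have h1 : Nat.Coprime p (p - 1) := by
      rw [Nat.Prime.coprime_iff_not_dvd hp]
      intro h
      have := hp.two_le
      have := Nat.le_of_dvd (by omega) h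
      omega
    exact h1.symm

end Pool.Agent.Results.MP_927be3_nt.LocalLowerBound
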