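import Mathlib
import Pool.Agent.V8H20.LD.L13

/-!
# The dimension threshold for the mean order of magnitude

For `k ≥ 3` we determine exactly in which dimensions `d` the mean value of `N_{k,d}` over the radii
whose `k`-th powers lie in a given residue class (containing the `k`-th power of some radius) has the
order `r^{d-k}`, with constants that do not depend on the class or the modulus.
-/

set_option autoImplicit false

open Finset

namespace Pool.Agent.Results.MP_927be3_nt.MeanThreshold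

/-- The arithmetic `k`-sphere `S_{k,d}(r)` of radius `r` in dimension `d`. -/
def sphere (k d : ℕ) (r : ℝ) : Set (Fin d → ℤ) := {m | ∑ i, |(m i : ℝ)| ^ k = r ^ k}

/-- The positive integers `n ≤ r^k` with `n ≡ a (mod W)`: the `k`-th powers of the candidate radii
`n^{1/k} ≤ r` in the residue class of `a` modulo `W`. -/
noncomputable def cls (k W a : ℕ) (r : ℝ) : Finset ℕ := (Icc 1 ⌊r ^ k⌋₊).filter (fun n => n ≡ a [MOD W])

/-- The sum of `N_{k,d}(n^{1/k})` over `n` in `cls k W a r`. -/
noncomputable def total (k d W a : ℕ) (r : ℝ) : ℝ :=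
  ∑ n ∈ cls k W a r, ((sphere k d ((n : ℝ) ^ (1 / (k : ℝ)))).ncard : ℝ)

/-- The mean value of `N_{k,d}` over the radii `≤ r` in a residue class has the order `r^{d-k}`: there
are constants `0 < c ≤ C` such that for every modulus `W ≥ 1` and every residue class `a` modulo `W`
which contains `s^k` for some radius `s > 0` with `S_{k,d}(s) ≠ ∅`, one has
`c r^{d-k} ≤ mean ≤ C r^{d-k}` for all sufficiently large real `r` (how large may depend on the
class, `c` and `C` do not). -/
def MeanOrderHolds (k d : ℕ) : Prop :=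
  ∃ c C : ℝ, 0 < c ∧ c ≤ C ∧ ∀ W a : ℕ, 1 ≤ W →
    (∃ s : ℝ, 0 < s ∧ (sphere k d s).Nonempty ∧ ∃ n : ℕ, s ^ k = n ∧ n ≡ a [MOD W]) →
    ∃ r₀ : ℝ, ∀ r : ℝ, r₀ ≤ r →
      c * r ^ ((d : ℝ) - k) * ((cls k W a r).card : ℝ) ≤ total k d W a r ∧
      total k d W a r ≤ C * r ^ ((d : ℝ) - k) * ((cls k W a r).card : ℝ)

/-- For `k ≥ 3`, the mean order of magnitude `N_{k,d}(r) ≍ r^{d-k}` over residue classes holds exactly
in the dimensions `d ≥ k + 2` with `d ≥ 2^{v_2(k)+2}` if `k` is even and `d ≥ p^{v_p(k)+1}` for every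
prime `p` with `p - 1 ∣ k`. -/
theorem result (k d : ℕ) (hk : 3 ≤ k) (hd : 1 ≤ d) :
    MeanOrderHolds k d ↔
      k + 2 ≤ d ∧ (2 ∣ k → 2 ^ (padicValNat 2 k + 2) ≤ d) ∧
        ∀ p : ℕ, p.Prime → p - 1 ∣ k → p ^ (padicValNat p k + 1) ≤ d :=
  Pool.Agent.V8H20.LD.avg_iff hk hd

end Pool.Agent.Results.MP_927be3_nt.MeanThreshold
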